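import Pool.Agent.Helper743.KTHalt
import Pool.Agent.Helper743.KTFin
import Pool.Agent.Helper743.ACAvoid
import Pool.Agent.Results.MP_04c775_lc.NoPABetween

set_option autoImplicit false

/-! Problem MP_95c08c_lc, question Q1, answered negatively: there are a computably enumerable
K-trivial set `A` and an almost complete set `B` computable from the halting problem such that `A`
is not computable from `B`.

The definitions of `Below`, `UpperSemi`, `KraftSum`, `IsComplexity`, `KTrivialRel`, `haltingSet` and
`AlmostComplete` are those of `Pool/Agent/Results/MP_04c775_lc/NoPABetween.lean`. The set `A` is the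
noncomputable c.e. K-trivial set of `Pool/Agent/Helper743/KTSet.lean`; the set `B` is the almost
complete set of `Pool/Agent/Helper743/AC*.lean` which avoids the upper cone of a given noncomputable
c.e. set. -/

namespace Pool.Agent.Results.MP_95c08c_lc.KTrivialNotBelow

open Nat.Partrec (Code)
open Pool.Agent.Helper743 Pool.Agent.Helper743.KT
open Pool.Agent.Results.MP_04c775_lc.NoPABetween

/-- `X` is K-trivial: K-trivial relative to the empty set. -/
def KTrivial (X : ℕ → Bool) : Prop := KTrivialRel X (fun _ => false)

lemma upS_iff (B : ℕ → Bool) (f : ℕ → ℕ) : UpperSemi B f ↔ UpS (fun n => (B n).toNat) f := by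
  constructor
  · rintro ⟨φ, h1, h2⟩
    exact ⟨φ, RecursiveIn.iff_nat.1 h1, h2⟩
  · rintro ⟨φ, h1, h2⟩
    exact ⟨φ, RecursiveIn.iff_nat.2 h1, h2⟩

lemma isComplexity_iff (B : ℕ → Bool) (κ : ℕ → ℕ) :
    IsComplexity B κ ↔ Opt (fun n => (B n).toNat) κ := by
  constructor
  · rintro ⟨h1, h2, h3⟩
    exact ⟨(upS_iff B κ).1 h1, h2, fun f hf hk => h3 f ((upS_iff B f).2 hf) hk⟩
  · rintro ⟨h1, h2, h3⟩
    exact ⟨(upS_iff B κ).2 h1, h2, fun f hf hk => h3 f ((upS_iff B f).1 hf) hk⟩

lemma below_iff (A B : ℕ → Bool) :
    Below A B ↔ TR (fun n => (A n).toNat) (fun n => (B n).toNat) := TR_iff.symm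

/-- K-triviality relative to a set which is equivalent to the function `G` -/
lemma rel_of {X B : ℕ → Bool} {G : ℕ → ℕ} {L : ℕ → List Bool}
    (h1 : TR G (fun n => (B n).toNat)) (h2 : TR (fun n => (B n).toNat) G)
    (hL : ∀ n, L n = List.ofFn (fun i : Fin n => X i))
    (h : ∃ c, ∀ n, KG G (Encodable.encode (L n)) ≤ KG G n + c) : KTrivialRel X B := by
  obtain ⟨c, hc⟩ := h
  refine ⟨KG G, (isComplexity_iff B _).2 (Opt_of_TR h1 h2 (Opt_KG G)), c, fun n => ?_⟩
  rw [← hL]
  exact hc n

/-- the K-trivial set -/
noncomputable def setA (n : ℕ) : Bool := open Classical in decide (inA n)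

lemma setA_toNat : (fun n => (setA n).toNat) = chiA := by
  classical
  funext n
  unfold setA chiA chi
  by_cases h : inA n <;> simp [h]

lemma setA_re : REPred (fun n => setA n = true) := by
  classical
  refine inA_re.of_eq (fun n => ?_)
  unfold setA
  simp

lemma XA_eq (n : ℕ) : XA n = List.ofFn (fun i : Fin n => setA i) := by
  classical
  unfold XA
  apply List.ext_getElem
  · simp
  · intro i hi1 hi2
    rw [List.getElem_ofFn]
    simp [setA]

lemma setA_trivial : KTrivial setA := by
  refine rel_of (G := fun m => m) (TR_of_computable Computable.id) ?_ XA_eq inA_triv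
  exact TR_of_computable (Computable.const 0)

/-- **Negative answer to Q1.** There are a c.e. K-trivial set `A` and an almost complete set `B`
computable from the halting problem with `A` not computable from `B`. -/
theorem result : ∃ A B : ℕ → Bool, KTrivial A ∧ REPred (fun n => A n = true) ∧
    AlmostComplete B ∧ Below B haltingSet ∧ ¬ Below A B := by
  classical
  -- an index of the K-trivial set
  obtain ⟨c, hc⟩ := Code.exists_code.1 (show Nat.Partrec (fun n => (Part.assert (setA n = true)
    fun _ => Part.some 0 : Part ℕ)) from by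
      have h := setA_re
      have h1 := (Partrec.map h (Computable.const 0 : Computable (fun _ : ℕ × Unit => 0)).to₂)
      refine Partrec.nat_iff.1 (h1.of_eq (fun n => ?_))
      ext y
      simp [Part.assert])
  set a := Encodable.encode c with ha
  have hWA : AC.WA a = chiA := by
    rw [← setA_toNat]
    funext n
    unfold AC.WA K
    rw [Nat.unpair_pair, ha, Denumerable.ofNat_encode, hc]
    by_cases h : setA n = true
    · simp [h, Part.assert]
    · rw [Bool.not_eq_true] at h
      simp [h, Part.assert]
  have hnc : ¬ Computable (AC.WA a) := by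
    rw [hWA]
    exact not_computable
  have hK0 : (fun n => (haltingSet n).toNat) = K0 := by
    funext n
    unfold haltingSet K0
    by_cases h : (Code.eval (Denumerable.ofNat Code n) n).Dom <;> simp [h]
  refine ⟨setA, gr (AC.GG a), setA_trivial, setA_re, ?_, ?_, ?_⟩
  · exact rel_of (TR_gr _) (gr_TR _) kstr_eq (halting_triv a)
  · rw [below_iff, hK0]
    exact TR.trans (gr_TR _) (TR.trans (AC.limC_GG a).TR_K K_TR_K0)
  · intro h
    rw [below_iff, setA_toNat, ← hWA] at h
    exact AC.avoids a hnc (TR.trans h (gr_TR _))

end Pool.Agent.Results.MP_95c08c_lc.KTrivialNotBelow
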